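import Pool.Agent.Results.MP_783f50_lc.FodorReflectionLocal

/-! The global equivalence follows from the level-by-level one. -/

namespace Pool.Agent.Lib.MP_783f50_lc.Impl

open Pool.Agent.Lib.MP_2739cb_lc Pool.Agent.Lib.MP_783f50_lc

universe v

/-- The statement of the retired global form, from the new result with `K` the class of all sets. -/
theorem old_from_new {M : Type v} (E : M → M → Prop) (hE : IsZFC E) (w w₁ : M) (hw : IsOmega E w)
    (hw₁ : IsOmega1 E w w₁) :
    (∀ V A, IsGraph E V A → Connected E w A V → ¬ HasNST E w V A →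
      (∃ U B, IsGraph E U B ∧ Connected E w B U ∧ IsAleph01 E w w₁ U B ∧ IsMinor E w U B V A) ∨
      ∃ B S, IsGraph E w₁ B ∧ Connected E w B w₁ ∧ IsStationary E w₁ S ∧ IsSGraph E w B S ∧
        IsMinor E w w₁ B V A) ↔ FRP E w w₁ :=
  have h := Pool.Agent.Results.MP_783f50_lc.FodorReflectionLocal.result E hE w w₁ hw hw₁
    (fun _ => True) fun _ _ _ _ => trivial
  ⟨fun H κ S g C h1 h2 h3 => h.1 (fun V A _ => H V A) κ trivial h1 h2 h3 S g C,
    fun H V A => h.2 (fun κ _ h1 h2 h3 S g C => H κ S g C h1 h2 h3) V A trivial⟩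

end Pool.Agent.Lib.MP_783f50_lc.Impl
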