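import Pool.Agent.Lib.MP_783f50_lc.FR.Reg

/-! The regular lemma from the reflection principle at one cardinal. -/

namespace Pool.Agent.Lib.MP_783f50_lc

open Pool.Agent.Lib.MP_2739cb_lc

set_option synthInstance.maxSize 100000

universe v

variable {M : Type v} [ZM M] {V A : M}

/-- The working form of the reflection principle at one ordinal. -/
def FRPat (κ : M) : Prop :=
  ∀ S g : M, Reg κ → om1 M ∈ κ → GStat κ S → (∀ α, α ∈ S → (∃ a, a ∈ α) ∧ CofW α) →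
    (∀ α, α ∈ S → app g α ⊆ κ ∧ Ctbl (app g α)) →
    ∃ I, I ⊆ κ ∧ Le I (om1 M) ∧ (∀ B, B ⊆ I → Ctbl B → ∃ a, a ∈ I ∧ ∀ b, b ∈ B → b ∈ a) ∧
      (∀ α, α ∈ S → α ∈ I → app g α ⊆ I) ∧
      ∀ f : M, (∀ α, α ∈ S → α ∈ I → app f α ∈ α ∧ app f α ∈ app g α) →
        ∃ ξ, IsStationary (EE M) (sU I) (sep I fun α => α ∈ S ∧ app f α = ξ)

theorem reg_lemmaL {κ e : M} (hF : FRPat κ) (hG : Gr V A) (hκ : Reg κ) (hω : om M ∈ κ)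
    (eV : ∀ a, a ∈ κ → app e a ∈ V)
    (st : GStat κ (sep κ fun α => ∃ C, Wit A (yy V e κ) (yy V e α) C)) : BadMinor V A := by
  have hO := hκ.1
  rcases od_tri hO od_om1 with h0 | h0
  · rcases hO.sub od_om1 h0 with rfl | h1
    · exact bad_of_stat hG eV st
    · obtain ⟨b, h2, h3⟩ := hκ.bdd hω (ctbl_of_mem_om1 h1) (fun x => x) fun _ h => h
      exact absurd (h3 b h2) (mem_irrefl b)
  obtain ⟨E, hE⟩ : ∃ E, E = sep κ fun α => ∃ C, Wit A (yy V e κ) (yy V e α) C := ⟨_, rfl⟩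
  have hE' : ∀ α, α ∈ E ↔ α ∈ κ ∧ ∃ C, Wit A (yy V e κ) (yy V e α) C := fun α => hE ▸ mem_sep
  rw [← hE] at st
  obtain ⟨g, hg⟩ := choice E (pw κ) (fun α y => Ctbl y ∧ ∃ C, Wit A (yy V e y) (yy V e α) C ∧
      Inf (nb A (yy V e (y ∩ α)) C)) fun α hα => by
    obtain ⟨h1, C, h2, h3, h4, h5, h6⟩ := (hE' α).1 hα
    obtain ⟨B, h7, h8, h9⟩ := h6.exists_ctbl
    obtain ⟨y, h10, h11, h12⟩ := yy_index h2 h3
    obtain ⟨y', h13, h14, h15⟩ := yy_index (e := e) (α := α) (B := B)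
      (fun z hz => (mem_nb.1 (h7 z hz)).1) h8
    refine ⟨y ∪ y', mem_pw.2 fun z hz => (mem_union.1 hz).elim (h10 z)
      fun h => hO.trans h1 (h13 z h), h11.union h14, C,
      ⟨sub_trans h12 (yy_mono fun z hz => by simp [hz]), h3, h4, h5, h6⟩, h9.mono fun z hz => ?_⟩
    exact mem_nb.2 ⟨yy_mono (fun t ht => by simp [ht, h13 t ht]) z (h15 z hz),
      (mem_nb.1 (h7 z hz)).2⟩
  obtain ⟨S, hS⟩ := exists_sep E fun α => (∃ a, a ∈ α) ∧ CofW α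
  have hSst : GStat κ S := by
    refine ⟨fun α hα => st.1 α ((hS α).1 hα).1, fun k hk => ?_⟩
    obtain ⟨γ, hγ⟩ := choice κ κ (fun b c => b ∈ c ∧ Cl k c ∧ CofW c)
      fun b hb => exists_closed hκ hω hk hb
    by_cases hc : ∃ b, b ∈ κ ∧ app γ b ∈ E
    · obtain ⟨b, h1, h2⟩ := hc
      exact ⟨_, (hS _).2 ⟨h2, ⟨b, (hγ b h1).2.1⟩, (hγ b h1).2.2.2⟩, ⟨b, (hγ b h1).2.1⟩,
        (hγ b h1).2.2.1⟩
    obtain ⟨δ, h1, h2, h3⟩ := (st.inter hO fun b hb => (hγ b hb).1).2 k hk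
    obtain ⟨h4, -, h5⟩ := mem_sep.1 h1
    obtain ⟨h6, h7, C, h8, h9⟩ := hg δ h4
    have h10 := st.1 δ h4
    refine ⟨δ, (hS δ).2 ⟨h4, h2, app g δ ∩ δ, fun z hz => (mem_inter.1 hz).2,
      h7.mono fun z hz => (mem_inter.1 hz).1, fun x hx => ?_⟩, h2, h3⟩
    by_contra h11
    have h12 := hO.trans h10 hx
    have h13 : app g δ ∩ δ ⊆ app γ x := fun b hb => by
      rcases hO.tri (hO.trans h10 (mem_inter.1 hb).2) h12 with h | rfl | h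
      · exact (hO.mem (hγ x h12).1).trans (hγ x h12).2.1 h
      · exact (hγ b h12).2.1
      · exact absurd ⟨b, hb, h⟩ h11
    exact hc ⟨x, h12, (hE' _).2 ⟨(hγ x h12).1, C, sub_trans h8.1 (yy_mono (mem_pw.1 h6)), h8.2.1,
      fun u hu h => h8.2.2.1 u hu (yy_mono ((hO.mem h10).sub_of_mem (h5 x hx)) u h),
      h8.2.2.2.1, h9.mono (nb_mono (yy_mono h13))⟩⟩
  obtain ⟨I, hI1, hI2, hI3, hI4, hI5⟩ := hF S g hκ h0 hSst (fun α hα => ((hS α).1 hα).2)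
    fun α hα => ⟨mem_pw.1 (hg α ((hS α).1 hα).1).1, (hg α ((hS α).1 hα).1).2.1⟩
  obtain ⟨x0, hx0, -⟩ := hI3 ∅ (empty_sub _) (ctbl_om.mono (empty_sub _))
  obtain ⟨i, hi1, hi2⟩ := hI2.total hx0
  obtain ⟨g0, -, hg0⟩ := exists_lam (om1 M) fun ζ => app e (app i ζ)
  refine bad_of_stat hG (g := g0) (fun a ha => by rw [hg0 a ha]; exact eV _ (hI1 _ (hi1 a ha)))
    ⟨fun z hz => (mem_sep.1 hz).1, fun k hk => ?_⟩
  by_contra hc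
  obtain ⟨f, hf⟩ := choice (S ∩ I) κ (fun α x => x ∈ α ∧ x ∈ app g α ∧
      ∀ δ, δ ∈ om1 M → Cl k δ → (∀ ζ, ζ ∈ δ → app i ζ ∈ α) → ∀ ζ, ζ ∈ δ → app i ζ ≠ x)
      fun α hα => by
    obtain ⟨h1, h2⟩ := mem_inter.1 hα
    obtain ⟨h3, h4, C, h5, h6⟩ := hg α ((hS α).1 h1).1
    obtain ⟨D, hD⟩ := exists_sep (om1 M) fun δ => Cl k δ ∧ ∀ ζ, ζ ∈ δ → app i ζ ∈ α
    have hD1 : D ⊆ om1 M := fun z hz => ((hD z).1 hz).1
    by_contra h7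
    have h8 : ∀ x, x ∈ app g α ∩ α → ∃ ζ, ζ ∈ sU D ∧ app i ζ = x := fun x hx => by
      by_contra h8
      exact h7 ⟨x, mem_pw.1 h3 x (mem_inter.1 hx).1, (mem_inter.1 hx).2, (mem_inter.1 hx).1,
        fun δ h9 h10 h11 ζ h12 h13 => h8 ⟨ζ, mem_sU.2 ⟨δ, (hD δ).2 ⟨h9, h10, h11⟩, h12⟩, h13⟩⟩
    have h9 : ∀ ζ, ζ ∈ sU D → app i ζ ∈ α := fun ζ hζ =>
      let ⟨δ, h9, h10⟩ := mem_sU.1 hζ; ((hD δ).1 h9).2.2 ζ h10
    have h10 : sU D ∈ om1 M := by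
      obtain ⟨ζ, h10, h11⟩ := hi2 α h2
      refine (od_tri od_om1 (od_sU od_om1 hD1)).resolve_left fun h => ?_
      exact mem_irrefl α (by simpa [h11] using h9 ζ (h ζ h10))
    have h11 : yy V e (app g α ∩ α) ⊆ yy V g0 (sU D) := fun z hz => by
      obtain ⟨h11, x, h12, rfl⟩ := mem_yy.1 hz
      obtain ⟨ζ, h13, rfl⟩ := h8 x h12
      exact mem_yy.2 ⟨h11, ζ, h13, hg0 ζ (od_om1.trans h10 h13)⟩
    have h12 := h6.mono (nb_mono h11)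
    refine hc ⟨sU D, mem_sep.2 ⟨h10, C, fun z hz => ?_, h5.2.1, fun u hu h => h5.2.2.1 u hu ?_,
      h5.2.2.2.1, h12⟩, ?_, fun a ha => ?_⟩
    · obtain ⟨h13, x, h14, rfl⟩ := mem_yy.1 (h5.1 z hz)
      obtain ⟨ζ, h15, rfl⟩ := hi2 x (hI4 α h1 h2 x h14)
      exact mem_yy.2 ⟨h13, ζ, h15, hg0 ζ h15⟩
    · obtain ⟨h13, ζ, h14, rfl⟩ := mem_yy.1 h
      exact mem_yy.2 ⟨h13, _, h9 ζ h14, (hg0 ζ (od_om1.trans h10 h14)).symm⟩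
    · obtain ⟨u, hu⟩ := h12.nonempty
      obtain ⟨-, ζ, h13, -⟩ := mem_yy.1 (mem_nb.1 hu).1
      exact ⟨ζ, h13⟩
    · obtain ⟨δ, h13, h14⟩ := mem_sU.1 ha
      exact mem_sU.2 ⟨δ, h13, ((hD δ).1 h13).2.1 a h14⟩
  obtain ⟨ξ, hξ⟩ := hI5 f fun α h1 h2 =>
    ⟨(hf α (mem_inter.2 ⟨h1, h2⟩)).2.1, (hf α (mem_inter.2 ⟨h1, h2⟩)).2.2.1⟩
  obtain ⟨t0, h1, -⟩ := stat_unbdd hO hI1 hI3 hξ hx0
  obtain ⟨h2, h3, h4⟩ := mem_sep.1 h1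
  obtain ⟨η, h5, h6⟩ := hi2 ξ (hI4 t0 h3 h2 ξ (h4 ▸ (hf t0 (mem_inter.2 ⟨h3, h2⟩)).2.2.1))
  obtain ⟨δ, h7, h8, h9, -⟩ := exists_closed reg_om1 om_mem_om1 hk h5
  obtain ⟨B, hB⟩ := exists_img δ fun ζ => app i ζ
  obtain ⟨a, h10, h11⟩ := hI3 B (fun z hz => by
      obtain ⟨ζ, h10, rfl⟩ := (hB z).1 hz
      exact hi1 ζ (od_om1.trans h7 h10))
    ((ctbl_of_mem_om1 h7).img (fun ζ => app i ζ) fun z hz => (hB z).1 hz)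
  obtain ⟨t, h12, h13⟩ := stat_unbdd hO hI1 hI3 hξ h10
  obtain ⟨h14, h15, h16⟩ := mem_sep.1 h12
  exact (hf t (mem_inter.2 ⟨h15, h14⟩)).2.2.2 δ h7 h9 (fun ζ hζ => (hO.mem (hI1 t h14)).trans h13
    (h11 _ ((hB _).2 ⟨ζ, hζ, rfl⟩))) η h8 (h6.trans h16.symm)

end Pool.Agent.Lib.MP_783f50_lc
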