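import Pool.Agent.Lib.MP_783f50_lc.FR.Sing
import Pool.Agent.Lib.MP_783f50_lc.FL.LReg

/-! The induction on sizes from the reflection principle below a bound. -/

namespace Pool.Agent.Lib.MP_783f50_lc

open Pool.Agent.Lib.MP_2739cb_lc

set_option synthInstance.maxSize 100000

universe v

variable {M : Type v} [ZM M] {V A : M}

theorem chainL {κ W : M} (hF : FRPat κ) (hG : Gr V A) (hB : ¬ BadMinor V A) (hκ : Reg κ)
    (hω : om M ∈ κ) (hW : W ⊆ V) (hle : Le W κ) :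
    ∃ e k : M, (∀ a, a ∈ κ → app e a ∈ V) ∧ (∀ a, a ∈ κ → app k a ∈ κ) ∧ W ⊆ yy V e κ ∧
      ∀ δ, δ ∈ κ → (∃ a, a ∈ δ) → Cl k δ → Good A V (yy V e δ) := by
  have hO := hκ.1
  have hω' := hO.sub_of_mem hω
  obtain ⟨a0, ha0⟩ := hG.ne
  obtain ⟨w, hw1, hw2⟩ := (hle.union hO hω' (le_single hω' a0)).total (x := a0) (by simp)
  have hwV : ∀ a, a ∈ κ → app w a ∈ V := fun a ha => (mem_union.1 (hw1 a ha)).elim (hW _)
    fun h => mem_single.1 h ▸ ha0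
  obtain ⟨s, hs⟩ := exists_step hG
  obtain ⟨Y, hY⟩ := exists_rec hO.suc V (fun β y => app s y ∪ ({app w β} ∩ V)) fun β y _ hy z hz =>
    (mem_union.1 hz).elim ((hs y hy).1 z) fun h => (mem_inter.1 h).2
  have hκs : ∀ a, a ∈ κ → a ∈ suc κ := fun a ha => mem_suc.2 (Or.inl ha)
  have hs' := fun a (ha : a ∈ κ) => hs _ (hY a (hκs a ha)).1
  obtain ⟨Z, -, hZ⟩ := exists_lam κ fun β => app s (app Y β) ∪ ({app w β} ∩ V)
  have hYm : ∀ α, α ∈ suc κ → ∀ z, z ∈ app Y α ↔ ∃ β, β ∈ α ∧ z ∈ app Z β :=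
    fun α hα z => by
      rw [(hY α hα).2]
      exact exists_congr fun β => and_congr_right fun hβ => by
        rw [hZ β (sub_of_mem_suc hO hα β hβ)]
  have hYZ : ∀ β, β ∈ κ → app s (app Y β) ⊆ app Z β := fun β hβ z hz => by
    rw [hZ β hβ]; simp [hz]
  have small : ∀ α, α ∈ κ → ∃ ξ, ξ ∈ κ ∧ om M ⊆ ξ ∧ Le (app Z α) ξ := by
    refine mem_induction _ _ fun α hα ih => ?_
    obtain ⟨r, hr⟩ := choice α κ (fun β ξ => om M ⊆ ξ ∧ Le (app Z β) ξ)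
      fun β hβ => ih β hβ (hO.trans hα hβ)
    obtain ⟨b, h1, h2⟩ := hκ.2 α hα r fun β hβ => (hr β hβ).1
    have h3 := hO.union_mem h1 (hO.union_mem hα hω)
    have h4 : om M ⊆ b ∪ (α ∪ om M) := fun z hz => by simp [hz]
    refine ⟨_, h3, h4, ?_⟩
    rw [hZ α hα]
    refine Le.union (hO.mem h3) h4 ((hs' α hα).2.2.1 _ (hO.mem h3) h4 ?_)
      ((le_single h4 _).mono fun z hz => (mem_inter.1 hz).1)
    refine Le.cover (hO.mem h3) h4 (I := α) (le_of_sub fun z hz => by simp [hz])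
      (fun β => app Z β) (fun β hβ => (hr β hβ).2.2.mono' fun z hz => ?_)
      fun z hz => (hYm α (hκs α hα) z).1 hz
    exact mem_union.2 (Or.inl ((hO.mem h1).trans (h2 β hβ) hz))
  have hX : Le (app Y κ) κ := Le.cover hO hω' (le_of_sub (sub_refl κ)) (fun β => app Z β)
    (fun β hβ => let ⟨ξ, h1, _, h2⟩ := small β hβ; h2.mono' (hO.sub_of_mem h1))
    fun z hz => (hYm κ (self_mem_suc κ) z).1 hz
  have hZX : ∀ a, a ∈ κ → app Z a ⊆ app Y κ := fun a ha z hz =>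
    (hYm κ (self_mem_suc κ) z).2 ⟨a, ha, hz⟩
  have hwX : ∀ a, a ∈ κ → app w a ∈ app Y κ := fun a ha =>
    hZX a ha _ (by rw [hZ a ha]; simp [hwV a ha])
  obtain ⟨e, he1, he2⟩ := hX.total (hwX _ hω)
  have hXV := (hY κ (self_mem_suc κ)).1
  have eV : ∀ a, a ∈ κ → app e a ∈ V := fun a ha => hXV _ (he1 a ha)
  have hXe : app Y κ ⊆ yy V e κ := fun z hz => mem_yy.2 ⟨hXV z hz, he2 z hz⟩
  obtain ⟨k0, hk0, hk0'⟩ : ∃ k0 : M, (∀ a, a ∈ κ → app k0 a ∈ κ) ∧ ∀ δ, δ ∈ κ → (∃ a, a ∈ δ) →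
      Cl k0 δ → ¬ ∃ C, Wit A (yy V e κ) (yy V e δ) C := by
    by_contra hc
    refine hB (reg_lemmaL hF hG hκ hω eV ⟨fun z hz => (mem_sep.1 hz).1, fun k hk => ?_⟩)
    by_contra h1
    exact hc ⟨k, hk, fun δ h2 h3 h4 h5 => h1 ⟨δ, mem_sep.2 ⟨h2, h5⟩, h3, h4⟩⟩
  obtain ⟨k, hk⟩ := choice κ κ (fun a b => a ∈ b ∧ app k0 a ∈ b ∧
      (∃ β, β ∈ b ∧ app e a ∈ app Z β) ∧ app Z a ⊆ yy V e b) fun a ha => by
    obtain ⟨β, h1, h2⟩ := (hYm κ (self_mem_suc κ) _).1 (he1 a ha)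
    obtain ⟨ξ, h3, -, h4⟩ := small a ha
    obtain ⟨j, hj⟩ := choice (app Z a) κ (fun z c => app e c = z) fun z hz => he2 z (hZX a ha z hz)
    obtain ⟨b, h5, h6⟩ := hκ.bdd h3 h4 (fun z => app j z) fun z hz => (hj z hz).1
    refine ⟨b ∪ (suc a ∪ (suc (app k0 a) ∪ suc β)), hO.union_mem h5 (hO.union_mem
      (hκ.suc_mem hω ha) (hO.union_mem (hκ.suc_mem hω (hk0 a ha)) (hκ.suc_mem hω h1))),
      by simp, by simp, ⟨β, by simp, h2⟩, fun z hz => mem_yy.2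
        ⟨hXV z (hZX a ha z hz), _, mem_union.2 (Or.inl (h6 z hz)), (hj z hz).2⟩⟩
  refine ⟨e, k, eV, fun a ha => (hk a ha).1, fun z hz => ?_, fun δ hδ hne hcl => ?_⟩
  · obtain ⟨a, ha, rfl⟩ := hw2 z (by simp [hz])
    exact hXe _ (hwX a ha)
  have hD := hO.mem hδ
  have hk' := fun a (ha : a ∈ δ) => hk a (hO.trans hδ ha)
  have heq : yy V e δ = app Y δ := by
    refine sub_antisymm (fun z hz => ?_) fun z hz => ?_
    · obtain ⟨-, a, ha, rfl⟩ := mem_yy.1 hz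
      obtain ⟨β, h1, h2⟩ := (hk' a ha).2.2.2.1
      exact (hYm δ (hκs δ hδ) _).2 ⟨β, hD.trans (hcl a ha) h1, h2⟩
    · obtain ⟨β, h1, h2⟩ := (hYm δ (hκs δ hδ) z).1 hz
      exact yy_mono (hD.sub_of_mem (hcl β h1)) z ((hk' β h1).2.2.2.2 z h2)
  refine ⟨fun z hz => (mem_yy.1 hz).1, fun u v hu hv => ?_, fun hb => ?_⟩
  · rw [heq] at hu hv ⊢
    obtain ⟨β, h1, h2⟩ := (hYm δ (hκs δ hδ) u).1 hu
    obtain ⟨β', h3, h4⟩ := (hYm δ (hκs δ hδ) v).1 hv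
    have h5 := hD.union_mem h1 h3
    have h6 := hcl _ h5
    have h7 := hO.trans hδ h6
    have h8 := (hk' _ h5).2.1
    exact (hs' _ h7).2.2.2.2 u v _
      ((hYm _ (hκs _ h7) u).2
        ⟨β, (hD.mem h1).mem_of_sub (hD.mem h6) (fun z hz => by simp [hz]) h8, h2⟩)
      ((hYm _ (hκs _ h7) v).2
        ⟨β', (hD.mem h3).mem_of_sub (hD.mem h6) (fun z hz => by simp [hz]) h8, h4⟩)
      fun z hz => (hYm δ (hκs δ hδ) z).2 ⟨_, h6, hYZ _ h7 z hz⟩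
  · obtain ⟨C, h1, h2⟩ := (hs' δ hδ).2.2.2.1 (heq ▸ hb)
    exact hk0' δ hδ hne (fun a ha => hD.trans (hcl a ha) (hk' a ha).2.2.1)
      ⟨C, sub_trans h1 (sub_trans (hYZ δ hδ) (sub_trans (hZX δ hδ) hXe)), heq ▸ h2⟩

theorem exists_goodL {κ l W : M} (hF : ∀ μ, μ ∈ suc κ → FRPat μ) (hG : Gr V A)
    (hB : ¬ BadMinor V A) (hκ : Od κ)
    (hl : Od l) (hω : om M ⊆ l) (hn : ¬ Le κ l) (hW : W ⊆ V) (hle : Le W l) :
    ∃ X, W ⊆ X ∧ Good A V X ∧ Le X l := by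
  obtain ⟨μ, h1, h2, h3⟩ := exists_min (suc κ) (fun μ => ¬ Le μ l) ⟨κ, self_mem_suc κ, hn⟩
  have hO := hκ.suc.mem h1
  have h4 : ∀ δ, δ ∈ μ → Le δ l := fun δ hδ => not_not.1 (h3 δ hδ (hκ.suc.trans h1 hδ))
  have h5 : l ∈ μ := (od_tri hO hl).resolve_left fun h => h2 (le_of_sub h)
  have h6 : om M ∈ μ := od_om.mem_of_sub hO hω h5
  have h7 : Reg μ := by
    refine ⟨hO, fun ξ hξ f hf => ?_⟩
    by_contra hc
    push Not at hc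
    refine h2 ((h4 ξ hξ).cover hl hω (fun a => suc (app f a))
      (fun a ha => (h4 _ (hf a ha)).union hl hω (le_single hω _)) fun z hz => ?_)
    obtain ⟨a, h7, h8⟩ := hc z hz
    exact ⟨a, h7, hO.mem_suc_of_not hz (hf a h7) h8⟩
  obtain ⟨e, k, -, h8, h9, h10⟩ := chainL (hF μ h1) hG hB h7 h6 hW (hle.mono' (hO.sub_of_mem h5))
  obtain ⟨j, hj⟩ := choice W μ (fun z c => app e c = z) fun z hz => (mem_yy.1 (h9 z hz)).2
  obtain ⟨b, h11, h12⟩ := h7.bdd h5 hle (fun z => app j z) fun z hz => (hj z hz).1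
  obtain ⟨δ, h13, h14, h15, -⟩ := exists_closed h7 h6 h8 h11
  refine ⟨yy V e δ, fun z hz => mem_yy.2 ⟨hW z hz, _, (hO.mem h13).trans h14 (h12 z hz),
    (hj z hz).2⟩, h10 δ h13 ⟨b, h14⟩ h15, (h4 δ h13).img (fun a => app e a) fun z hz => ?_⟩
  obtain ⟨-, a, h16, h17⟩ := mem_yy.1 hz
  exact ⟨a, h16, h17.symm⟩

theorem reg_stepL {κ W : M} (hF : FRPat κ) (hG : Gr V A) (hB : ¬ BadMinor V A) (hκ : Reg κ)
    (hω : om M ∈ κ) (ih : ∀ l, l ∈ κ → ∀ X, X ⊆ V → Le X l → ∃ h, RR A X X h) (hW : W ⊆ V)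
    (hle : Le W κ) : ∃ h, RR A W W h := by
  have hO := hκ.1
  obtain ⟨e, k, h1, h2, h3, h4⟩ := chainL hF hG hB hκ hω hW hle
  obtain ⟨r, -, hr⟩ := exists_rel κ V fun a x => app e a = x
  have h5 : ∀ l, l ⊆ κ → zz V r l = yy V e l := fun l hl => zext fun z => by
    rw [mem_zz, mem_yy]
    exact and_congr_right fun hz => exists_congr fun a => and_congr_right fun ha => by
      rw [hr]; exact ⟨fun h => h.2.2, fun h => ⟨hl a ha, hz, h⟩⟩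
  obtain ⟨L, hL⟩ := exists_sep (suc κ) fun l => Cl k l
  obtain ⟨h, h6⟩ := filt hG (r := r) (L := L) hO (fun l hl => ((hL l).1 hl).1) (fun B hB' => by
      have h6 : B ⊆ suc κ := fun l hl => ((hL l).1 (hB' l hl)).1
      refine (hL _).2 ⟨(od_sU hO.suc h6).mem_of_sub hO.suc (fun z hz => ?_) (self_mem_suc κ),
        fun a ha => ?_⟩
      · obtain ⟨l, h7, h8⟩ := mem_sU.1 hz
        exact sub_of_mem_suc hO (h6 l h7) z h8
      · obtain ⟨l, h7, h8⟩ := mem_sU.1 ha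
        exact mem_sU.2 ⟨l, h7, ((hL l).1 (hB' l h7)).2 a h8⟩)
    (fun a ha => let ⟨γ, h6, h7, h8, _⟩ := exists_closed hκ hω h2 ha
      ⟨γ, (hL γ).2 ⟨mem_suc.2 (Or.inl h6), h8⟩, h6, h7⟩) fun l h6 h7 => by
    rw [h5 l (hO.sub_of_mem h7)]
    refine ⟨?_, ih l h7 _ (fun z hz => (mem_yy.1 hz).1) ⟨e, fun z hz => (mem_yy.1 hz).2⟩⟩
    rcases empty_or l with rfl | h8
    · rw [eq_empty (a := yy V e ∅) fun z hz => by simpa using (mem_yy.1 hz).2]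
      exact good_empty
    · exact h4 l h7 h8 ((hL l).1 h6).2
  rw [h5 κ (sub_refl κ)] at h6
  exact ⟨h, h6.restrict (sub_refl _) h3⟩

theorem sing_oneL {κ μ L w r : M} (hF : ∀ μ, μ ∈ suc κ → FRPat μ) (hG : Gr V A)
    (hB : ¬ BadMinor V A) (hκ : Od κ)
    (hc : ∀ l, l ∈ κ → ¬ Le κ l) (hμ : Od μ) (hω : om M ⊆ μ) (hL : Le L μ)
    (hL' : ∀ l, l ∈ L → l ∈ κ ∧ μ ⊆ l) (h2 : Fib V κ μ r) :
    ∃ r', r' ⊆ prd κ V ∧ Fib V κ μ r' ∧ (∀ a, a ∈ κ → app w a ∈ V → op a (app w a) ∈ r') ∧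
      ∀ l, l ∈ L → ∃ X, zz V r l ⊆ X ∧ X ⊆ zz V r' l ∧ Good A V X := by
  obtain ⟨e, he⟩ := choice L (pw (prd κ V)) (fun l f => ∃ X, zz V r l ⊆ X ∧ Good A V X ∧
      ∀ z, z ∈ X → ∃ a, a ∈ l ∧ app f a = z) fun l hl => by
    obtain ⟨h3, h4⟩ := hL' l hl
    obtain ⟨X, h5, h6, h7⟩ := exists_goodL hF hG hB hκ (hκ.mem h3) (sub_trans hω h4) (hc l h3)
      (W := zz V r l) (fun z hz => (mem_zz.1 hz).1)
      (h2.le (hκ.mem h3) (hκ.sub_of_mem h3) hω h4)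
    obtain ⟨f, h8, h9⟩ := h7.bdd h6.1
    refine ⟨f, mem_pw.2 fun p hp => ?_, X, h5, h6, h9⟩
    obtain ⟨a, b, ha, hb, rfl⟩ := mem_prd.1 (h8 p hp)
    exact op_mem_prd.2 ⟨hκ.trans h3 ha, hb⟩
  obtain ⟨r', h3, h4⟩ := exists_rel κ V fun a x =>
    x = app w a ∨ ∃ l, l ∈ L ∧ x = app (app e l) a
  refine ⟨r', h3, fun a ha => ?_, fun a ha h => (h4 _ _).2 ⟨ha, h, Or.inl rfl⟩, fun l hl => ?_⟩
  · obtain ⟨U, hU⟩ := exists_img L fun l => app (app e l) a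
    refine ((le_single hω (app w a)).union hμ hω (hL.img (fun l => app (app e l) a)
      fun z hz => (hU z).1 hz)).mono fun z hz => ?_
    simpa [hU] using ((h4 _ _).1 (mem_sep.1 hz).2).2.2
  · obtain ⟨-, X, h5, h6, h7⟩ := he l hl
    refine ⟨X, h5, fun z hz => ?_, h6⟩
    obtain ⟨a, h8, h9⟩ := h7 z hz
    exact mem_zz.2 ⟨h6.1 z hz, a, h8,
      (h4 _ _).2 ⟨hκ.trans (hL' l hl).1 h8, h6.1 z hz, Or.inr ⟨l, hl, h9.symm⟩⟩⟩

theorem sing_stepL {κ W : M} (hF : ∀ μ, μ ∈ suc κ → FRPat μ) (hG : Gr V A)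
    (hB : ¬ BadMinor V A) (hκ : Od κ)
    (hc : ∀ l, l ∈ κ → ¬ Le κ l) (hω : om M ∈ κ) (hn : ¬ Reg κ)
    (ih : ∀ l, l ∈ κ → ∀ X, X ⊆ V → Le X l → ∃ h, RR A X X h) (hW : W ⊆ V)
    (hle : Le W κ) : ∃ h, RR A W W h := by
  have hsuc : ∀ x, x ∈ κ → suc x ∈ κ := fun x hx => by
    have h1 := hκ.union_mem hx hω
    have h2 : om M ⊆ x ∪ om M := fun z hz => by simp [hz]
    refine ((hκ.mem hx).suc.sub hκ fun z hz => ?_).resolve_left fun e => hc _ h1 ?_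
    · exact (mem_suc.1 hz).elim (hκ.trans hx) fun h => h ▸ hx
    · exact e ▸ Le.union (hκ.mem h1) h2 (le_of_sub fun z hz => by simp [hz]) (le_single h2 x)
  have h1 : om1 M ∈ κ := by
    rcases od_tri od_om1 hκ with h | h
    · exact (od_om1.sub hκ h).resolve_left fun e => hn (e ▸ reg_om1)
    · exact absurd (ctbl_of_mem_om1 h) (hc _ hω)
  obtain ⟨ξ, hξ, f, hf, hf'⟩ : ∃ ξ, ξ ∈ κ ∧ ∃ f : M, (∀ a, a ∈ ξ → app f a ∈ κ) ∧
      ∀ b, b ∈ κ → ∃ a, a ∈ ξ ∧ app f a ∉ b := by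
    by_contra h
    refine hn ⟨hκ, fun ξ hξ f hf => ?_⟩
    by_contra h2
    refine h ⟨ξ, hξ, f, hf, fun b hb => ?_⟩
    by_contra h3
    exact h2 ⟨b, hb, fun a ha => not_not.1 fun h4 => h3 ⟨a, ha, h4⟩⟩
  obtain ⟨μ, hμ⟩ : ∃ μ, μ = ξ ∪ om1 M := ⟨_, rfl⟩
  have hμκ : μ ∈ κ := hμ ▸ hκ.union_mem hξ h1
  have hμO := hκ.mem hμκ
  have hμ1 : om1 M ⊆ μ := fun z hz => by simp [hμ, hz]
  have hμω := sub_trans om_sub_om1 hμ1
  have hcof : ∀ x, x ∈ κ → ∃ a, a ∈ ξ ∧ x ∈ app f a := fun x hx => by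
    obtain ⟨a, h2, h3⟩ := hf' _ (hsuc x hx)
    refine ⟨a, h2, ?_⟩
    by_contra h4
    exact h3 (hκ.mem_suc_of_not (hf a h2) hx h4)
  obtain ⟨L, hL⟩ := exists_sep (suc κ) fun l => l = ∅ ∨
    (μ ⊆ l ∧ ∀ x, x ∈ l → x ∈ μ ∨ ∃ a, a ∈ ξ ∧ x ∈ app f a ∧ app f a ⊆ l)
  obtain ⟨L', hL'⟩ := exists_sep L fun l => l ∈ κ ∧ μ ⊆ l
  have hL'le : Le L' μ := by
    refine Le.mono' (θ := ξ) (le_of _ _ (fun a => sep κ fun x => x ∈ μ ∨
      ∃ a', a' ∈ ξ ∧ x ∈ app f a' ∧ app f a' ∈ app f a) fun l hl => ?_) fun z hz => by simp [hμ, hz]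
    obtain ⟨h2, h3, h4⟩ := (hL' l).1 hl
    obtain ⟨_, h5, ⟨a, h6, rfl, h7⟩, h8⟩ := exists_min κ
      (fun b => ∃ a, a ∈ ξ ∧ app f a = b ∧ l ∈ b) (let ⟨a, h5, h6⟩ := hcof l h3
        ⟨_, hf a h5, a, h5, rfl, h6⟩)
    refine ⟨a, h6, zext fun x => mem_sep.trans ⟨?_, fun hx => ⟨hκ.trans h3 hx, ?_⟩⟩⟩
    · rintro ⟨-, h9 | ⟨a', h9, h10, h11⟩⟩
      · exact h4 x h9
      · exact (od_tri (hκ.mem (hf a' h9)) (hκ.mem h3)).resolve_right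
          (fun h => h8 _ h11 (hf a' h9) ⟨a', h9, rfl, h⟩) x h10
    · rcases ((hL l).1 h2).2 with rfl | ⟨-, h9⟩
      · exact absurd hx (not_mem_empty x)
      · exact (h9 x hx).imp id fun ⟨a', h10, h11, h12⟩ =>
          ⟨a', h10, h11, (hκ.mem (hf a' h10)).mem_of_sub (hκ.mem h5) h12 h7⟩
  obtain ⟨w, hw⟩ := hle
  obtain ⟨s, hs⟩ := choice (sep (pw (prd κ V)) fun r => Fib V κ μ r) (pw (prd κ V))
    (fun r r' => Fib V κ μ r' ∧ (∀ a, a ∈ κ → app w a ∈ V → op a (app w a) ∈ r') ∧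
      ∀ l, l ∈ L' → ∃ X, zz V r l ⊆ X ∧ X ⊆ zz V r' l ∧ Good A V X) fun r hr =>
    let ⟨r', h2, h3⟩ := sing_oneL (w := w) hF hG hB hκ hc hμO hμω hL'le
      (fun l hl => ((hL' l).1 hl).2) (mem_sep.1 hr).2
    ⟨r', mem_pw.2 h2, h3⟩
  obtain ⟨Y, hY⟩ := exists_rec od_om1.suc (prd κ V) (fun _ y => app s y ∩ prd κ V)
    fun _ _ _ _ z hz => (mem_inter.1 hz).2
  have hfib : ∀ n, n ∈ suc (om1 M) → Fib V κ μ (app Y n) := by
    refine mem_induction _ _ fun n hn ih a ha => ?_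
    refine Le.cover hμO hμω (le_of_sub (sub_trans (sub_of_mem_suc od_om1 hn) hμ1))
      (fun m => sep V fun x => op a x ∈ app s (app Y m)) (fun m hm => ?_) fun z hz => ?_
    · have h2 := od_om1.suc.trans hn hm
      exact (hs _ (mem_sep.2 ⟨mem_pw.2 (hY m h2).1, ih m hm h2⟩)).2.1 a ha
    · obtain ⟨m, h2, h3⟩ := ((hY n hn).2 _).1 (mem_sep.1 hz).2
      exact ⟨m, h2, mem_sep.2 ⟨(mem_sep.1 hz).1, (mem_inter.1 h3).1⟩⟩
  have hs' := fun n (hn : n ∈ suc (om1 M)) => hs _ (mem_sep.2 ⟨mem_pw.2 (hY n hn).1, hfib n hn⟩)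
  have hsY : ∀ m n, n ∈ suc (om1 M) → m ∈ n → app s (app Y m) ⊆ app Y n := fun m n hn hm z hz =>
    ((hY n hn).2 z).2 ⟨m, hm, mem_inter.2 ⟨hz, mem_pw.1 (hs' m (od_om1.suc.trans hn hm)).1 z hz⟩⟩
  have h0 := self_mem_suc (om1 M)
  obtain ⟨h, h2⟩ := filt hG (r := app Y (om1 M)) (L := L) hκ (fun l hl => ((hL l).1 hl).1)
    (fun B hB' => by
      have h6 : B ⊆ suc κ := fun l hl => ((hL l).1 (hB' l hl)).1
      refine (hL _).2 ⟨(od_sU hκ.suc h6).mem_of_sub hκ.suc (fun z hz => ?_) (self_mem_suc κ), ?_⟩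
      · obtain ⟨l, h7, h8⟩ := mem_sU.1 hz
        exact sub_of_mem_suc hκ (h6 l h7) z h8
      refine (empty_or (sU B)).imp id fun ⟨x, hx⟩ => ⟨fun z hz => ?_, fun y hy => ?_⟩
      · obtain ⟨l, h7, h8⟩ := mem_sU.1 hx
        rcases ((hL l).1 (hB' l h7)).2 with rfl | h9
        · exact absurd h8 (not_mem_empty x)
        · exact mem_sU.2 ⟨l, h7, h9.1 z hz⟩
      · obtain ⟨l, h7, h8⟩ := mem_sU.1 hy
        rcases ((hL l).1 (hB' l h7)).2 with rfl | h9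
        · exact absurd h8 (not_mem_empty y)
        · exact (h9.2 y h8).imp id fun ⟨a, h10, h11, h12⟩ =>
            ⟨a, h10, h11, fun z hz => mem_sU.2 ⟨l, h7, h12 z hz⟩⟩)
    (fun x hx => by
      obtain ⟨a, h2, h3⟩ := hcof x hx
      have h4 := hκ.union_mem hμκ (hf a h2)
      exact ⟨_, (hL _).2 ⟨mem_suc.2 (Or.inl h4), Or.inr ⟨fun z hz => by simp [hz], fun z hz =>
        (mem_union.1 hz).imp id fun h => ⟨a, h2, h, fun t ht => by simp [ht]⟩⟩⟩, h4, by simp [h3]⟩)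
    fun l h2 h3 => by
    rcases ((hL l).1 h2).2 with rfl | ⟨h4, -⟩
    · rw [eq_empty (a := zz V (app Y (om1 M)) ∅) fun z hz => by simpa using (mem_zz.1 hz).2]
      exact ⟨good_empty, rr_of_ctbl (ctbl_om.mono (empty_sub _))⟩
    refine ⟨good_of_local (fun z hz => (mem_zz.1 hz).1) fun B h5 h6 => ?_,
      ih l h3 _ (fun z hz => (mem_zz.1 hz).1)
        ((hfib _ h0).le (hκ.mem h3) (hκ.sub_of_mem h3) hμω h4)⟩
    obtain ⟨j, hj⟩ := choice B (om1 M) (fun x m => x ∈ zz V (app s (app Y m)) l) fun x hx => by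
      obtain ⟨h7, a, h8, h9⟩ := mem_zz.1 (h5 x hx)
      obtain ⟨m, h10, h11⟩ := ((hY _ h0).2 _).1 h9
      exact ⟨m, h10, mem_zz.2 ⟨h7, a, h8, (mem_inter.1 h11).1⟩⟩
    obtain ⟨n, h7, h8⟩ := h6.bdd (fun x => app j x) fun x hx => (hj x hx).1
    have h9 : n ∈ suc (om1 M) := mem_suc.2 (Or.inl h7)
    obtain ⟨X, h10, h11, h12⟩ := (hs' n h9).2.2.2 l ((hL' l).2 ⟨h2, h3, h4⟩)
    exact ⟨X, fun x hx => h10 x (zz_mono (hsY _ n h9 (h8 x hx)) (sub_refl l) x (hj x hx).2),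
      sub_trans h11 (zz_mono (hsY n _ h0 h7) (sub_refl l)), h12⟩
  refine ⟨h, h2.restrict (sub_refl _) fun z hz => ?_⟩
  obtain ⟨a, h3, rfl⟩ := hw z hz
  exact mem_zz.2 ⟨hW _ hz, a, h3, hsY ∅ _ h0 empty_mem_om1 _
    ((hs' ∅ (mem_suc.2 (Or.inl empty_mem_om1))).2.2.1 a h3 (hW _ hz))⟩

theorem nst_of_frpL {θ : M} (h1 : Od θ) (hF : ∀ μ, μ ∈ suc θ → FRPat μ) (hG : Gr V A)
    (h2 : Le V θ) (hB : ¬ BadMinor V A) :
    HasNST (EE M) (om M) V A := by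
  have key : ∀ κ, κ ∈ suc θ → ∀ X, X ⊆ V → Le X κ → ∃ h, RR A X X h := by
    refine mem_induction _ _ fun κ hκ ih X hX hle => ?_
    have hO := h1.suc.mem hκ
    have ih' := fun l (hl : l ∈ κ) => ih l hl (h1.suc.trans hκ hl)
    by_cases h3 : ∃ l, l ∈ κ ∧ Le κ l
    · obtain ⟨l, h4, h5⟩ := h3
      exact ih' l h4 X hX (hle.trans h5)
    rcases od_tri hO od_om with h4 | h4
    · exact rr_of_ctbl (hle.mono' h4)
    by_cases h5 : Reg κ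
    · exact reg_stepL (hF κ hκ) hG hB h5 h4 ih' hX hle
    · exact sing_stepL (fun μ hμ => hF μ ((mem_suc.1 hμ).elim (h1.suc.trans hκ) fun e => e ▸ hκ))
        hG hB hO (fun l hl h => h3 ⟨l, hl, h⟩) h4 h5 ih' hX hle
  obtain ⟨h, h3⟩ := key θ (self_mem_suc θ) V (sub_refl V) h2
  exact hasNST_of_rr hG h3

end Pool.Agent.Lib.MP_783f50_lc
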