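import Pool.Agent.Lib.MP_783f50_lc.FR.FDefs

/-!
The Fodor-type Reflection Principle at one cardinal, read inside a structure `(M, E)`.
-/

namespace Pool.Agent.Lib.MP_783f50_lc

open Pool.Agent.Lib.MP_2739cb_lc

universe v

variable {M : Type v} (E : M → M → Prop)

/-- The Fodor-type Reflection Principle at `κ`: for every stationary set `S ⊆ κ` of ordinals of
cofinality `w` and every function `g` on `S` whose values are countable subsets of `κ`, there is
`I ⊆ κ` of size `w₁` with supremum `β` such that `I` has no countable cofinal subset,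
`g α ⊆ I` for `α ∈ I ∩ S`, and every function `f : S ∩ I → κ` with `f α < α` and `f α ∈ g α`
is constant on a set stationary in `β`. -/
def FRPAt (w w₁ κ : M) : Prop :=
  ∀ S g C, IsStationary E κ S →
    (∀ α, E α S → CofOmega E w α) → IsFun E g S C →
    (∀ α y, App E g α y → Sub E y κ ∧ CardLe E y w) →
    ∃ I β, Sub E I κ ∧ CardEq E w₁ I ∧ (∀ z, E z β ↔ ∃ y, E y I ∧ E z y) ∧
      (∀ B, Sub E B I → CardLe E B w → ∃ a, E a I ∧ ∀ b, E b B → E b a) ∧
      (∀ α y, E α I → App E g α y → Sub E y I) ∧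
      ∀ f D, (∀ α, E α D ↔ E α S ∧ E α I) → IsFun E f D κ →
        (∀ α x y, App E f α x → App E g α y → E x α ∧ E x y) →
        ∃ ξ T, E ξ κ ∧ (∀ α, E α T ↔ App E f α ξ) ∧ IsStationary E β T

end Pool.Agent.Lib.MP_783f50_lc
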