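import Pool.Agent.Lib.MP_783f50_lc.FR.Conv
import Pool.Agent.Lib.MP_783f50_lc.FR.Trans
import Pool.Agent.Lib.MP_783f50_lc.FL.LReg
import Pool.Agent.Lib.MP_783f50_lc.FL.LDefs

/-! The converse at one cardinal, and the translation to the official form. -/

namespace Pool.Agent.Lib.MP_783f50_lc

open Pool.Agent.Lib.MP_2739cb_lc

set_option synthInstance.maxSize 100000

universe v

variable {M : Type v} [ZM M]

theorem Lad.le {κ S s V A : M} (h : Lad κ S s V A) (hω : om M ∈ κ) : Le V κ := by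
  have hω' := h.od.sub_of_mem hω
  obtain ⟨U, hU⟩ := exists_img (prd S (om M)) fun p => nd κ (app s (p1 p)) (p2 p)
  refine ((le_of_sub h.sub).union h.od hω' (((le_of_sub h.sub).prd h.od hω' (le_of_sub hω')).img
    (X' := U) (fun p => nd κ (app s (p1 p)) (p2 p)) fun z hz => (hU z).1 hz)).mono fun z hz => ?_
  obtain ⟨α, h1, rfl | ⟨n, h2, rfl⟩⟩ := (h.hV z).1 hz
  · exact mem_union.2 (Or.inl h1)
  · exact mem_union.2 (Or.inr ((hU _).2 ⟨op α n, op_mem_prd.2 ⟨h1, h2⟩, by simp⟩))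

theorem Le.cardLe {X θ : M} (h : Le X θ) : CardLe (EE M) X θ :=
  let ⟨e, h1, h2⟩ := h.exists_inj; cardLe_of _ _ (fun z => app e z) h1 h2

theorem frpat_of_minors {κ : M} (hS : ∀ V A : M, Le V κ → IsGraph (EE M) V A → Connected (EE M) (om M) A V →
    ¬ HasNST (EE M) (om M) V A → BadMinor V A) : FRPat κ := by
  intro S g hκ hω1 hst hcof hg
  have hO := hκ.1
  have hω := hO.trans hω1 om_mem_om1
  obtain ⟨k0, hk0⟩ := choice κ κ (fun a b => a ∈ S → ∀ x, x ∈ app g a → x ∈ b) fun a ha => by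
    by_cases h : a ∈ S
    · obtain ⟨b, h1, h2⟩ := hκ.bdd hω (hg a h).2 (fun x => x) (hg a h).1
      exact ⟨b, h1, fun _ => h2⟩
    · exact ⟨a, ha, fun h1 => absurd h1 h⟩
  have hst0 := hst.inter hO fun a ha => (hk0 a ha).1
  obtain ⟨S0, hS0⟩ : ∃ S0, S0 = sep S fun δ => (∃ a, a ∈ δ) ∧ Cl k0 δ := ⟨_, rfl⟩
  have hS0' : ∀ δ, δ ∈ S0 → δ ∈ S ∧ (∃ a, a ∈ δ) ∧ Cl k0 δ := fun δ hδ => mem_sep.1 (hS0 ▸ hδ)
  rw [← hS0] at hst0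
  obtain ⟨s, hs⟩ := choice S0 (pw (prd (om M) κ)) (fun α t => (∀ n, n ∈ om M → app t n ∈ α) ∧
      (∀ x, x ∈ α → ∃ n, n ∈ om M ∧ x ∈ app t n) ∧
      ∀ x, x ∈ app g α → x ∈ α → ∃ n, n ∈ om M ∧ app t n = x) fun α hα => by
    obtain ⟨h1, ⟨a, h2⟩, -⟩ := hS0' α hα
    obtain ⟨B, h3, h4, h5⟩ := (hcof α h1).2
    obtain ⟨b, h6, -⟩ := h5 a h2
    obtain ⟨t, h7, h8⟩ := Le.total (X := B ∪ app g α ∩ α) (x := b)
      (h4.union ((hg α h1).2.mono fun z hz => (mem_inter.1 hz).1)) (by simp [h6])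
    have h9 : ∀ n, n ∈ om M → app t n ∈ α := fun n hn =>
      (mem_union.1 (h7 n hn)).elim (h3 _) fun h => (mem_inter.1 h).2
    obtain ⟨t', h10, h11⟩ := exists_fn (om M) κ (fun n => app t n)
      fun n hn => hO.trans (hst.1 α h1) (h9 n hn)
    refine ⟨t', mem_pw.2 h10, fun n hn => by rw [h11 n hn]; exact h9 n hn, fun x hx => ?_,
      fun x h12 h13 => ?_⟩
    · obtain ⟨y, h12, h13⟩ := h5 x hx
      obtain ⟨n, h14, rfl⟩ := h8 y (by simp [h12])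
      exact ⟨n, h14, by rwa [h11 n h14]⟩
    · obtain ⟨n, h14, rfl⟩ := h8 x (by simp [h12, h13])
      exact ⟨n, h14, h11 n h14⟩
  obtain ⟨V, A, hL⟩ := exists_lad (s := s) hO hst0.1
    (fun α hα => let ⟨_, ⟨_, h⟩, _⟩ := hS0' α hα; (hO.mem (hst0.1 α hα)).empty_mem h)
    fun α n hα hn => (hs α hα).2.1 n hn
  obtain ⟨Z, hZ1, hZ2, hZ3⟩ := hL.exists_notr hst0.nonempty
    (hS V A (hL.le hω) hL.graph (hL.conn hst0.nonempty) (hL.no_nst hκ hω hst0))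
  have hZκ : Z ⊆ κ := sub_trans hZ1 hst0.1
  obtain ⟨U, hU⟩ := exists_sep κ fun x => ∃ α, α ∈ Z ∧ ∃ n, n ∈ om M ∧ x = app (app s α) n
  obtain ⟨I, hI1, hI2, hI3, hI4⟩ := exists_hull (B := {∅} ∪ (Z ∪ U)) hg
    (fun z hz => by
      simp only [mem_union, mem_single] at hz
      rcases hz with rfl | h | h
      · exact hO.empty_mem hω
      · exact hZκ z h
      · exact ((hU z).1 h).1)
    (Le.union od_om1 om_sub_om1 (Le.mono' (ctbl_single _) om_sub_om1)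
      (hZ2.union od_om1 om_sub_om1 ((hZ2.prd od_om1 om_sub_om1 (le_of_sub om_sub_om1)).img
        (fun p => app (app s (p1 p)) (p2 p)) fun z hz =>
          let ⟨_, α, h1, n, h2, h3⟩ := (hU z).1 hz; ⟨op α n, by simp [h1, h2], by simp [h3]⟩)))
  obtain ⟨i, hi1, hi2⟩ := hI3.total (hI2 ∅ (by simp))
  have hIy : I ⊆ yy κ i (om1 M) := fun z hz => mem_yy.2 ⟨hI1 z hz, hi2 z hz⟩
  have hZI : Z ⊆ I := fun z hz => hI2 z (by simp [hz])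
  obtain ⟨β, hβ1, hβ2, hβ3⟩ := exists_min (suc κ) (fun β => GStat (om1 M)
      (sep (om1 M) fun δ => ∃ α, α ∈ Z ∧ α ∈ β ∧ Bq κ s i δ α))
    ⟨κ, self_mem_suc κ, (stat_of_notr (sub_trans hZI hIy) (fun α n h1 h2 => hIy _ (hI2 _ (by
        simp only [mem_union, hU]
        exact Or.inr (Or.inr ⟨hL.val' (hZ1 α h1) n h2, α, h1, n, h2, rfl⟩)))) hZ3).mono
      (fun δ hδ => let ⟨h1, α, h2, h3⟩ := mem_sep.1 hδ; mem_sep.2 ⟨h1, α, h2, hZκ α h2, h3⟩)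
      fun δ hδ => (mem_sep.1 hδ).1⟩
  have hβO := hO.suc.mem hβ1
  have hmin : ∀ S1 f : M, GStat (om1 M) S1 → ¬ ∀ δ, δ ∈ S1 → ∃ a, a ∈ δ ∧ app f a ∈ β ∧
      ∃ α, α ∈ Z ∧ α ∈ app f a ∧ Bq κ s i δ α := fun S1 f h1 h2 => by
    obtain ⟨a, -, S2, h3, h4⟩ := fodor reg_om1 om_mem_om1 h1
      (fun δ a => app f a ∈ β ∧ ∃ α, α ∈ Z ∧ α ∈ app f a ∧ Bq κ s i δ α) h2
    obtain ⟨δ0, h5⟩ := h3.nonempty
    have h6 := (h4 δ0 h5).2.1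
    exact hβ3 _ h6 (hO.suc.trans hβ1 h6) (h3.mono
      (fun δ hδ => mem_sep.2 ⟨h3.1 δ hδ, (h4 δ hδ).2.2⟩) fun δ hδ => (mem_sep.1 hδ).1)
  have hcf : ∀ B, B ⊆ β → Ctbl B → ∃ α, α ∈ Z ∧ α ∈ β ∧ ∀ b, b ∈ B → b ∈ α := fun B h1 h2 => by
    by_contra hc
    obtain ⟨η, h3, h4⟩ := yy_bound (κ := κ) (i := i) (B := B ∩ I)
      (fun z hz => hIy z (mem_inter.1 hz).2) (h2.mono fun z hz => (mem_inter.1 hz).1)
    obtain ⟨f, hf⟩ := h2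
    refine hmin _ f (hβ2.above od_om1 (od_om1.union_mem h3 om_mem_om1)) fun δ hδ => ?_
    obtain ⟨h5, h6⟩ := mem_sep.1 hδ
    obtain ⟨h7, α, h8, h9, h10⟩ := mem_sep.1 h5
    obtain ⟨b, h11, h12⟩ : ∃ b, b ∈ B ∧ b ∉ α := by
      by_contra h
      exact hc ⟨α, h8, h9, fun b hb => not_not.1 fun h11 => h ⟨b, hb, h11⟩⟩
    obtain ⟨n, h13, rfl⟩ := hf b h11
    refine ⟨n, sub1 h7 h6 n (by simp [h13]), h1 _ h11, α, h8,
      (mem_suc.1 (hβO.mem_suc_of_not h9 (h1 _ h11) h12)).resolve_right fun e => h10.1 ?_, h10⟩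
    exact yy_mono (fun z hz => sub1 h7 h6 z (by simp [hz])) α
      (h4 α (mem_inter.2 ⟨e ▸ h11, hZI α h8⟩))
  have hcf' : ∀ x, x ∈ β → ∃ α, α ∈ Z ∧ α ∈ β ∧ x ∈ α := fun x hx =>
    let ⟨α, h1, h2, h3⟩ := hcf {x} (fun z hz => mem_single.1 hz ▸ hx) (ctbl_single x)
    ⟨α, h1, h2, h3 x (by simp)⟩
  have hE : GStat (om1 M) (sep (om1 M) fun δ => ∃ α, α ∈ Z ∧ α ∈ β ∧ Bq κ s i δ α ∧
      ∀ ζ, ζ ∈ δ → app i ζ ∈ β → app i ζ ∈ α) := by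
    refine ⟨fun z hz => (mem_sep.1 hz).1, fun k hk => ?_⟩
    by_contra hc
    refine hmin _ i (hβ2.inter od_om1 hk) fun δ hδ => ?_
    obtain ⟨h1, h2⟩ := mem_sep.1 hδ
    obtain ⟨h3, α, h4, h5, h6⟩ := mem_sep.1 h1
    by_contra h7
    refine hc ⟨δ, mem_sep.2 ⟨h3, α, h4, h5, h6, fun ζ h8 h9 => ?_⟩, h2⟩
    by_contra h10
    exact h7 ⟨ζ, h8, h9, α, h4, (mem_suc.1 (hβO.mem_suc_of_not h5 h9 h10)).resolve_right
      fun e => h6.1 (mem_yy.2 ⟨hZκ α h4, ζ, h8, e.symm⟩), h6⟩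
  have hsup : sU (I ∩ β) = β := zext fun z => by
    rw [mem_sU]
    exact ⟨fun ⟨y, h1, h2⟩ => hβO.trans (mem_inter.1 h1).2 h2, fun hz =>
      let ⟨α, h1, h2, h3⟩ := hcf' z hz; ⟨α, mem_inter.2 ⟨hZI α h1, h2⟩, h3⟩⟩
  refine ⟨I ∩ β, fun z hz => hI1 z (mem_inter.1 hz).1, hI3.mono fun z hz => (mem_inter.1 hz).1,
    fun B h1 h2 => ?_, fun α h1 h2 z hz => ?_, fun f hf => ?_⟩
  · obtain ⟨α, h3, h4, h5⟩ := hcf B (fun z hz => (mem_inter.1 (h1 z hz)).2) h2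
    exact ⟨α, mem_inter.2 ⟨hZI α h3, h4⟩, h5⟩
  · obtain ⟨h3, h4⟩ := mem_inter.1 h2
    obtain ⟨α', h5, h6, h7⟩ := hcf' α h4
    exact mem_inter.2 ⟨hI4 α h1 h3 z hz, hβO.trans h6 ((hβO.mem h6).trans
      ((hS0' α' (hZ1 α' h5)).2.2 α h7) ((hk0 α (hI1 α h3)).2 h1 z hz))⟩
  obtain ⟨ζ0, -, S', h1, h2⟩ := fodor reg_om1 om_mem_om1 hE (fun δ ζ => ∃ α, α ∈ Z ∧ α ∈ β ∧
      Bq κ s i δ α ∧ (∀ ζ, ζ ∈ δ → app i ζ ∈ β → app i ζ ∈ α) ∧ app f α = app i ζ) fun δ hδ => by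
    obtain ⟨-, α, h1, h2, h3, h4⟩ := mem_sep.1 hδ
    obtain ⟨h5, h6⟩ := hf α (hS0' α (hZ1 α h1)).1 (mem_inter.2 ⟨hZI α h1, h2⟩)
    obtain ⟨n, h7, h8⟩ := (hs α (hZ1 α h1)).2.2.2 _ h6 h5
    obtain ⟨-, ζ, h9, h10⟩ := mem_yy.1 (h3.2 n h7)
    exact ⟨ζ, h9, α, h1, h2, h3, h4, (h10.trans h8).symm⟩
  rw [hsup]
  refine ⟨app i ζ0, fun z hz => (mem_inter.1 (mem_sep.1 hz).1).2, fun C hC => ?_⟩
  obtain ⟨k, hk⟩ := choice (om1 M) (om1 M) (fun ζ ζ' => app i ζ ∈ β → app i ζ' ∈ β ∧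
      ∃ c, c ∈ C ∧ app i ζ ∈ c ∧ c ∈ app i ζ') fun ζ hζ => by
    by_cases h : app i ζ ∈ β
    · obtain ⟨c, h3, h4⟩ := hC.2.1 _ h
      obtain ⟨α, h5, h6, h7⟩ := hcf' c (hC.1 c h3)
      obtain ⟨ζ', h8, rfl⟩ := hi2 α (hZI α h5)
      exact ⟨ζ', h8, fun _ => ⟨h6, c, h3, h4, h7⟩⟩
    · exact ⟨ζ, hζ, fun h3 => absurd h3 h⟩
  obtain ⟨δ, h3, -, h4⟩ := h1.2 k fun a ha => (hk a ha).1
  obtain ⟨α, h5, h6, h7, h8, h9⟩ := (h2 δ h3).2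
  have h10 := hβO.mem h6
  refine ⟨α, mem_sep.2 ⟨mem_inter.2 ⟨hZI α h5, h6⟩, (hS0' α (hZ1 α h5)).1, h9⟩,
    hC.2.2 α h6 (hS0' α (hZ1 α h5)).2.1 fun a ha => ?_⟩
  obtain ⟨n, h11, h12⟩ := (hs α (hZ1 α h5)).2.2.1 a ha
  obtain ⟨-, ζ, h13, h14⟩ := mem_yy.1 (h7.2 n h11)
  obtain ⟨h15, c, h16, h17, h18⟩ := (hk ζ (od_om1.trans (h1.1 δ h3) h13)).2
    (h14 ▸ hβO.trans h6 ((hs α (hZ1 α h5)).2.1 n h11))
  exact ⟨c, h16, (hβO.mem (hC.1 c h16)).trans h17 (h14 ▸ h12),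
    h10.trans (h8 _ (h4 ζ h13) h15) h18⟩

theorem frpat_iff {κ : M} : (IsInfCard (EE M) κ → ¬ IsSingular (EE M) κ → om1 M ∈ κ →
    FRPAt (EE M) (om M) (om1 M) κ) ↔ FRPat κ := by
  constructor
  · intro H S g hκ h1 hS h2 h3
    have hω : om M ∈ κ := hκ.1.trans h1 om_mem_om1
    obtain ⟨g', hg, hg'⟩ := exists_isFun S (pw κ) (fun α => app g α)
      fun α hα => mem_pw.2 (h3 α hα).1
    obtain ⟨I, β, i1, i2, i3, i4, i5, i6⟩ := H (trans_infCard hκ hω)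
      (trans_not_sing hκ) h1 S g' (pw κ) (hS.stationary hκ.1) (fun α hα => by
        obtain ⟨h4, B, h5, h6, h7⟩ := h2 α hα
        exact ⟨⟨hκ.1.mem (hS.1 α hα), h4, fun b hb =>
          let ⟨c, h8, h9⟩ := h7 b hb; ⟨c, h5 c h8, h9⟩⟩, B, h5, h6.cardLe, h7⟩) hg
      (fun α y h => by
        obtain ⟨h4, rfl⟩ := (hg' _ _).1 h
        exact ⟨(h3 α h4).1, (h3 α h4).2.cardLe⟩)
    obtain rfl : β = sU I := zext fun z => (i3 z).trans mem_sU.symm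
    refine ⟨I, i1, ?_, fun B h4 h5 => i4 B h4 h5.cardLe,
      fun α h4 h5 => i5 α _ h5 ((hg' _ _).2 ⟨h4, rfl⟩), fun f hf => ?_⟩
    · obtain ⟨e, h4, h5⟩ := i2
      refine ⟨e, fun z hz => ?_⟩
      obtain ⟨a, ha⟩ := h5 z hz
      exact ⟨a, (trans_app h4.1 ha).1, (trans_app h4.1 ha).2.symm⟩
    · obtain ⟨f', h4, h5⟩ := exists_isFun (S ∩ I) κ (fun α => app f α) fun α hα =>
        (h3 α (mem_inter.1 hα).1).1 _ (hf α (mem_inter.1 hα).1 (mem_inter.1 hα).2).2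
      obtain ⟨ξ, T, -, h6, h7⟩ := i6 f' (S ∩ I) (fun _ => mem_inter) h4 fun α x y hx hy => by
        obtain ⟨h6, rfl⟩ := (h5 _ _).1 hx
        obtain ⟨-, rfl⟩ := (hg' _ _).1 hy
        exact hf α (mem_inter.1 h6).1 (mem_inter.1 h6).2
      obtain rfl : T = sep I fun α => α ∈ S ∧ app f α = ξ := zext fun z => by
        refine ((h6 z).trans (h5 z ξ)).trans ?_
        rw [mem_sep, mem_inter]
        exact ⟨fun h => ⟨h.1.2, h.1.1, h.2.symm⟩, fun h => ⟨⟨h.2.1, h.1⟩, h.2.2.symm⟩⟩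
      exact ⟨ξ, h7⟩
  · intro H h1 h2 h3 S g C hS h4 hg h5
    have hκ := trans_reg h1 h2
    have hω : om M ∈ κ := hκ.1.trans h3 om_mem_om1
    obtain ⟨I, i1, i2, i3, i4, i5⟩ := H S g hκ h3 (gstat_of_stationary hκ hω hS)
      (fun α hα => by
        obtain ⟨h6, B, h7, h8, h9⟩ := h4 α hα
        exact ⟨h6.2.1, B, h7, ctbl_of_cardLe h8, h9⟩)
      fun α hα => ⟨(h5 α _ (trans_app' hg hα).1).1, ctbl_of_cardLe (h5 α _ (trans_app' hg hα).1).2⟩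
    refine ⟨I, sU I, i1, trans_cardEq i2 fun hc => ?_, fun _ => mem_sU,
      fun B h6 h7 => i3 B h6 (ctbl_of_cardLe h7), fun α y h6 h7 => ?_, fun f D hD hf h6 => ?_⟩
    · obtain ⟨a, ha, h6⟩ := i3 I (sub_refl I) hc
      exact mem_irrefl a (h6 a ha)
    · obtain ⟨h8, rfl⟩ := trans_app hg h7
      exact i4 α h8 h6
    · obtain ⟨ξ, h7⟩ := i5 f fun α h7 h8 =>
        h6 α _ _ (trans_app' hf ((hD α).2 ⟨h7, h8⟩)).1 (trans_app' hg h7).1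
      have key : ∀ α, α ∈ (sep I fun α => α ∈ S ∧ app f α = ξ) ↔ App (EE M) f α ξ := by
        intro α
        rw [mem_sep]
        refine ⟨fun h => h.2.2 ▸ (trans_app' hf ((hD α).2 ⟨h.2.1, h.1⟩)).1, fun h => ?_⟩
        obtain ⟨h8, h9⟩ := trans_app hf h
        exact ⟨((hD α).1 h8).2, ((hD α).1 h8).1, h9.symm⟩
      obtain ⟨s, hs, -⟩ := h7.2 (sU I) ⟨fun _ h => h, fun a ha => by
        obtain ⟨y, hy, h8⟩ := mem_sU.1 ha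
        obtain ⟨c, hc, h9⟩ := i3 {y} (fun z hz => mem_single.1 hz ▸ hy) (ctbl_single y)
        exact ⟨y, mem_sU.2 ⟨c, hc, h9 y (mem_single.2 rfl)⟩, h8⟩, fun _ h _ _ => h⟩
      exact ⟨ξ, _, (ZM.zfc.app_mem hf ((key s).1 hs)).2, key, h7⟩

end Pool.Agent.Lib.MP_783f50_lc
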