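import Pool.Agent.Lib.MP_783f50_lc.FR.Final
import Pool.Agent.Lib.MP_783f50_lc.FL.LChain
import Pool.Agent.Lib.MP_783f50_lc.FL.LConv

/-! The level-by-level equivalence inside a working model. -/

namespace Pool.Agent.Lib.MP_783f50_lc

open Pool.Agent.Lib.MP_2739cb_lc

universe v

theorem exists_least_ord {M : Type v} [ZM M] (V : M) : ∃ θ, Od θ ∧ Le V θ ∧
    ∀ κ, κ ∈ suc θ → Reg κ → om M ∈ κ → CardLe (EE M) κ V := by
  obtain ⟨θ0, h1, h2⟩ := exists_le_ord V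
  obtain ⟨θ, h3, h4, h5⟩ := exists_min (suc θ0) (fun θ => Le V θ) ⟨θ0, self_mem_suc θ0, h2⟩
  have hO := h1.suc.mem h3
  refine ⟨θ, hO, h4, fun κ hκ hR hω => ?_⟩
  rcases mem_suc.1 hκ with h | rfl
  · rcases hart_cmp κ V with h6 | ⟨f, f1, f2⟩
    · exact absurd h6 (h5 κ h (h1.suc.trans h3 h))
    · exact cardLe_of _ _ (fun x => app f x) f1 f2
  · obtain ⟨e, e1, e2⟩ := h4.exists_inj
    obtain ⟨b, b1, b2, -⟩ := enum' (X := V) hR (fun x => app e x) e1 (by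
      by_contra hc
      push Not at hc
      obtain ⟨a, ha, h6⟩ := hc
      have h7 := hR.suc_mem hω ha
      exact h5 _ h7 (h1.suc.trans h3 h7) (le_of_inj V (suc a) (fun x => app e x)
        (fun x hx => hO.mem_suc_of_not (e1 x hx) ha (h6 x hx)) e2))
    exact cardLe_of _ _ (fun x => app b x) b1 b2

theorem minors_iff_frpL (M : Type v) [ZM M] (K : M → Prop)
    (hK : ∀ X Y, CardLe (EE M) X Y → K Y → K X) :
    (∀ V A : M, K V → IsGraph (EE M) V A → Connected (EE M) (om M) A V →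
      ¬ HasNST (EE M) (om M) V A → BadMinor V A) ↔
    ∀ κ, K κ → IsInfCard (EE M) κ → ¬ IsSingular (EE M) κ → EE M (om1 M) κ →
      FRPAt (EE M) (om M) (om1 M) κ := by
  refine ⟨fun h κ h0 => frpat_iff.2 (frpat_of_minors fun V A h1 => h V A (hK _ _ h1.cardLe h0)),
    fun h V A h0 h1 h2 h3 => ?_⟩
  obtain ⟨θ, t1, t2, t3⟩ := exists_least_ord V
  refine not_not.1 fun h4 => h3 (nst_of_frpL t1 (fun μ hμ => ?_) (gr_of h1 h2) t2 h4)
  intro S g hR h5
  exact frpat_iff.1 (h μ (hK _ _ (t3 μ hμ hR (hR.1.trans h5 om_mem_om1)) h0)) S g hR h5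

end Pool.Agent.Lib.MP_783f50_lc
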